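import Mathlib

set_option autoImplicit false
open MulAction Equiv
open scoped Classical

namespace Pool.Agent.H.MP_4dd1f4_al

def T2 (N X : Type*) [Group N] [MulAction N X] : Prop :=
  ∀ a b c d : X, a ≠ b → c ≠ d → ∃ g : N, g • a = c ∧ g • b = d

variable {N K X F : Type*} [Group N] [Group K] [MulAction N X] [MulAction N F]

lemma dv (ρ : N →* K) (x : X) (tr : ∀ y, ∃ n : N, n • x = y) (h : ∀ n, ρ n = 1 → n • x = x) :
    Nat.card X ∣ Nat.card ρ.range := by
  have := index_stabilizer N x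
  rw [show orbit N x = Set.univ from Set.eq_univ_of_forall tr, Set.ncard_univ] at this
  rw [← this, ← Subgroup.index_ker]
  exact Subgroup.index_dvd_of_le h

lemma tr (t : T2 N X) (L : Subgroup N) [hL : L.Normal] {l : N} (hl : l ∈ L) {x : X} (h : l • x ≠ x)
    (y : X) : ∃ n : L, n • x = y := by
  by_cases e : x = y
  · exact ⟨1, by simpa⟩
  obtain ⟨g, h1, h2⟩ := t x (l • x) x y h.symm e
  refine ⟨⟨_, hL.conj_mem l hl g⟩, ?_⟩
  rw [Subgroup.mk_smul, mul_smul, mul_smul, inv_smul_eq_iff.2 h1.symm, h2]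

lemma dv2 [Finite X] (t : T2 N X) (ρ : N →* K) {a b : X} (ab : a ≠ b)
    (h : ∀ n, ρ n = 1 → ∀ x : X, n • x = x) :
    Nat.card X * (Nat.card X - 1) ∣ Nat.card ρ.range := by
  have := Fintype.ofFinite X
  have := dv (X := Fin 2 ↪ X) ρ (Function.Embedding.embFinTwo ab) (fun y => by
    obtain ⟨g, h1, h2⟩ := t a b (y 0) (y 1) ab (y.injective.ne (by decide))
    exact ⟨g, by ext i; fin_cases i; exacts [h1, h2]⟩) fun n hn => by ext i; exact h n hn _
  simpa [Nat.descFactorial, mul_comm] using this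

lemma cauchy [Finite F] (t : T2 N F) (L : Subgroup N) [L.Normal] {l : N} (hl : l ∈ L) {x : F}
    (h : l • x ≠ x) (p : ℕ) [Fact p.Prime] (hp : p ∣ Nat.card F) :
    ∃ l ∈ L, orderOf (toPermHom N F l) = p := by
  obtain ⟨g, e⟩ := exists_prime_orderOf_dvd_card' p (hp.trans
    (dv ((toPermHom N F).comp L.subtype) x (tr t L hl h) fun n hn => DFunLike.congr_fun hn x))
  obtain ⟨l, hl⟩ := g.2
  exact ⟨l, l.2, (congrArg orderOf hl).trans ((Subgroup.orderOf_coe g).trans e)⟩

lemma reg [Finite F] (c : Nat.card F = 6) (t : T2 N F) (t' : T2 N X) (L : Subgroup N)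
    [hL : L.Normal] {l : N} (hl : l ∈ L) {w : F} (h : l • w ≠ w) (x : X)
    (fr : ∀ l ∈ L, l • x = x → ∀ w : F, l • w = w) : False := by
  have : Fact (Nat.Prime 3) := ⟨by norm_num⟩
  obtain ⟨a, ha, a2⟩ := cauchy t L hl h 2 (by simp [c])
  obtain ⟨b, hb, b3⟩ := cauchy t L hl h 3 (by simp [c])
  have e : ∀ l ∈ L, l • x = x → toPermHom N F l = 1 := fun l hl h => Equiv.ext (fr l hl h)
  obtain ⟨n, h1, h2⟩ := t' x (a • x) x (b • x) (fun h => by simp [e a ha h.symm] at a2)
    fun h => by simp [e b hb h.symm] at b3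
  have := e _ (L.mul_mem (L.inv_mem hb) (hL.conj_mem a ha n)) (by
    rw [mul_smul, mul_smul, mul_smul, inv_smul_eq_iff.2 h1.symm, h2, inv_smul_smul])
  rw [map_mul, map_inv, inv_mul_eq_one, map_mul, map_mul, map_inv] at this
  rw [this, ← MulAut.conj_apply, MulEquiv.orderOf_eq, a2] at b3
  omega

lemma comm [Finite F] (c : Nat.card F = 6) (t : T2 N F) (L : Subgroup N) [hL : L.Normal] {l : N}
    (hl : l ∈ L) {w : F} (h : l • w ≠ w) {u : N} {x : F} (hu : u • x ≠ x)
    (cm : ∀ l ∈ L, ∀ w : F, u • l • w = l • u • w) : False := by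
  refine reg c t t L hl h x fun l hl e w => ?_
  by_cases q : x = w
  · exact q ▸ e
  obtain ⟨n, h1, rfl⟩ := t x (u • x) x w hu.symm q
  have := cm _ (hL.conj_mem' l hl n) x
  simp only [mul_smul, h1, e, inv_smul_eq_iff.2 h1.symm] at this
  exact (eq_inv_smul_iff.1 this).symm

lemma fx {p : ℕ} [Finite X] [Fact p.Prime] {g : Perm X} (h : g ^ p = 1) :
    Nat.card X ≡ Nat.card {x // g x = x} [MOD p] := by
  have := Fintype.ofFinite X
  rw [Nat.subtype_card g.supportᶜ (by simp), Nat.card_eq_fintype_card]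
  exact (Perm.card_compl_support_modEq (n := 1) (by rwa [pow_one])).symm

lemma cop [Finite X] (t : T2 N X) (γ : Perm X) (x : X) (h0 : γ x = x) (h1 : γ ≠ 1)
    (hc : ∀ n : N, n • x = x → ∀ y, γ (n • y) = n • γ y) (n : N) (hn : n • x = x) :
    ¬(Nat.card X - 1).Coprime (Nat.card {y : X // n • y = y} - 1) := by
  obtain ⟨p, pp, hp⟩ := Nat.exists_prime_and_dvd (mt orderOf_eq_one_iff.1 h1)
  have := Fact.mk pp
  obtain ⟨k, hk⟩ : ∃ k, orderOf (γ ^ k) = p := ⟨_, orderOf_pow_orderOf_div (orderOf_pos γ).ne' hp⟩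
  have g0 : (γ ^ k) x = x := Perm.pow_apply_eq_self_of_apply_eq_self h0 k
  have gc : ∀ n : N, n • x = x → ∀ y, (γ ^ k) (n • y) = n • (γ ^ k) y := fun n hn y => by
    clear hk g0
    induction k with
    | zero => rfl
    | succ k ih => rw [pow_succ', Perm.mul_apply, Perm.mul_apply, ih, hc n hn]
  generalize γ ^ k = g at *
  have u : ∀ y, g y = y → y = x := fun y hy => by
    by_contra q
    refine pp.ne_one (hk.symm.trans (orderOf_eq_one_iff.2 (Equiv.ext fun z => ?_)))
    by_cases e : z = x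
    · exact e ▸ g0
    obtain ⟨n, h1, rfl⟩ := t x y x z (Ne.symm q) (Ne.symm e)
    rw [gc n h1, hy]; rfl
  have k : ∀ n : N, n • x = x → p ∣ Nat.card {y : X // n • y = y} - 1 := fun n hn => by
    have := fx (p := p) (g := g.subtypePerm (p := fun y => n • y = y) fun y => by
      rw [← gc n hn, g.injective.eq_iff]) (by
        rw [Perm.subtypePerm_pow]; ext y; simp [← hk, pow_orderOf_eq_one])
    refine (Nat.modEq_iff_dvd' (Nat.card_pos_iff.2 ⟨⟨⟨x, hn⟩⟩, inferInstance⟩)).1
      (Eq.subst (motive := fun a => a ≡ _ [MOD p]) ?_ this.symm)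
    exact Nat.card_eq_one_iff_exists.2 ⟨⟨⟨x, hn⟩, Subtype.ext g0⟩, fun y =>
      Subtype.ext (Subtype.ext (u _ (congrArg Subtype.val y.2)))⟩
  have := k 1 (one_smul _ _)
  rw [Nat.card_congr (Equiv.subtypeUnivEquiv (one_smul N))] at this
  exact fun c => pp.ne_one (Nat.eq_one_of_dvd_coprimes c this (k n hn))

lemma num [Finite F] [Finite X] (c : Nat.card F = 6) (t : T2 N F) (t' : T2 N X) {a b : X}
    (ab : a ≠ b) (k : ∀ n : N, (∀ w : F, n • w = w) ↔ ∀ x : X, n • x = x) (γ : X → Perm X)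
    (h0 : ∀ x, γ x x = x) (h1 : ∀ x, γ x ≠ 1)
    (hc : ∀ x, ∀ n : N, n • x = x → ∀ y, γ x (n • y) = n • γ x y) : False := by
  have := Fintype.ofFinite X
  have := Fintype.ofFinite F
  have : Fact (Nat.Prime 3) := ⟨by norm_num⟩
  have : Fact (Nat.Prime 5) := ⟨by norm_num⟩
  have : Nontrivial F := Finite.one_lt_card_iff_nontrivial.1 (by omega)
  obtain ⟨u, v, uv⟩ := exists_pair_ne F
  have k' : ∀ n, toPermHom N F n = 1 ↔ toPermHom N X n = 1 := fun n => by
    simpa [Equiv.ext_iff] using k n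
  have o : ∀ (l : N) (p : ℕ), orderOf (toPermHom N F l) = p → toPermHom N X l ^ p = 1 :=
    fun l p e => by rw [← map_pow, ← k', map_pow, ← e, pow_orderOf_eq_one]
  have key : ∀ l : N, toPermHom N F l ≠ 1 → Nat.card {y : X // l • y = y} < Nat.card X ∧
      (Nat.card {y : X // l • y = y} = 0 ∨
      ¬(Nat.card X - 1).Coprime (Nat.card {y : X // l • y = y} - 1)) := fun l hl => by
    obtain ⟨y, hy⟩ := not_forall.1 fun h => hl ((k' l).2 (Equiv.ext h))
    refine ⟨Finite.card_subtype_lt (x := y) hy, or_iff_not_imp_left.2 fun h => ?_⟩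
    obtain ⟨x, hx⟩ := (Nat.card_pos_iff.1 (Nat.pos_of_ne_zero h)).1
    exact cop t' (γ x) x (h0 x) (h1 x) (hc x) l hx
  have d1 := dv2 t (toPermHom N F) uv fun n hn => DFunLike.congr_fun hn
  obtain ⟨l5, e5⟩ : ∃ l, orderOf (toPermHom N F l) = 5 := by
    obtain ⟨g, e⟩ := exists_prime_orderOf_dvd_card' 5 (Dvd.dvd.trans (by rw [c]; decide) d1)
    obtain ⟨l, hl⟩ := g.2
    exact ⟨l, (congrArg orderOf hl).trans ((Subgroup.orderOf_coe g).trans e)⟩
  have n5 : toPermHom N F l5 ≠ 1 := fun h => by simp [h] at e5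
  obtain ⟨w, hw⟩ := not_forall.1 fun h => n5 (Equiv.ext h)
  obtain ⟨x, hx⟩ := not_forall.1 fun h => n5 ((k' _).2 (Equiv.ext h))
  have sg : ∀ s : ℤˣ, s ^ 5 = 1 → s = 1 := by decide
  obtain ⟨l3, -, e3⟩ := cauchy t ⊤ (Subgroup.mem_top l5) hw 3 (by rw [c]; decide)
  obtain ⟨l2, s2, e2⟩ := cauchy t (Perm.sign.comp (toPermHom N X)).ker (l := l5)
    (sg _ (by rw [MonoidHom.comp_apply, ← map_pow, o _ _ e5, map_one])) hw 2 (by rw [c]; decide)
  have d2 := (dv2 t' (toPermHom N F) ab fun n hn => DFunLike.congr_fun ((k' n).1 hn)).trans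
    (Subgroup.card_subgroup_dvd_card _)
  have d3 := (dv ((toPermHom N F).comp (Perm.sign.comp (toPermHom N F)).ker.subtype) x
    (tr t' _ (l := l5) (sg _ (by
      rw [MonoidHom.comp_apply, ← map_pow, ← e5, pow_orderOf_eq_one, map_one])) hx)
    fun n hn => DFunLike.congr_fun ((k' n).1 hn) x).trans (Subgroup.card_dvd_of_le
      (K := alternatingGroup F) (by rintro _ ⟨n, rfl⟩; exact n.2))
  rw [nat_card_alternatingGroup, c] at d3
  rw [Nat.card_perm, c] at d2
  have f5 : _ ≡ Nat.card {y : X // l5 • y = y} [MOD 5] := fx (o _ _ e5)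
  have f3 : _ ≡ Nat.card {y : X // l3 • y = y} [MOD 3] := fx (o _ _ e3)
  have f2 : _ ≡ Nat.card {y : X // l2 • y = y} [MOD 2] := fx (o _ _ e2)
  have f4 : Even ((Nat.card X - Nat.card {y : X // l2 • y = y}) / 2) := by
    have := (Perm.sign_of_pow_two_eq_one (o _ _ e2)).symm.trans s2
    rw [← Nat.card_eq_fintype_card, ← Nat.card_eq_fintype_card] at this
    exact (neg_one_pow_eq_one_iff_even (by decide)).1 this
  have k5 := key l5 n5
  have k3 := key l3 fun h => by simp [h] at e3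
  have k2 := key l2 fun h => by simp [h] at e2
  have m2 : 1 < Nat.card X := Finite.one_lt_card_iff_nontrivial.2 ⟨a, b, ab⟩
  generalize Nat.card X = m at *
  generalize Nat.card {y : X // l5 • y = y} = a5 at *
  generalize Nat.card {y : X // l3 • y = y} = a3 at *
  generalize Nat.card {y : X // l2 • y = y} = a2 at *
  have := Nat.le_of_dvd (by decide) d2
  obtain ⟨m, rfl⟩ := Nat.exists_eq_add_of_lt m2
  have : m < 30 := by simp [Nat.factorial] at this; nlinarith
  have q := (by decide : ∀ m < 30, (1 + m + 1) * (1 + m + 1 - 1) ∣ Nat.factorial 6 →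
    1 + m + 1 ∣ Nat.factorial 6 / 2 → m = 0 ∨ m = 1 ∨ m = 2 ∨ m = 3 ∨ m = 4 ∨ m = 7 ∨ m = 8)
    m this d2 d3
  clear d2 d3
  rcases q with rfl | rfl | rfl | rfl | rfl | rfl | rfl
  · revert f5; have := k5.1; interval_cases a5 <;> decide
  · revert f5; have := k5.1; interval_cases a5 <;> decide
  · revert f5; have := k5.1; interval_cases a5 <;> decide
  · have := k3.1; revert f3 k3; interval_cases a3 <;> decide
  · have := k2.1; revert f2 f4 k2; interval_cases a2 <;> decide
  · have := k5.1; revert f5 k5; interval_cases a5 <;> decide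
  · have := k2.1; revert f2 f4 k2; interval_cases a2 <;> decide

lemma abs {F' : Type*} [MulAction N F'] [Finite F] [Finite F'] (c : Nat.card F = 6)
    (c' : Nat.card F' = 6) (t : T2 N F) (t' : T2 N F') (tx : T2 N X) (Φ : X → F → F')
    (i : ∀ y, Function.Injective (Φ y)) (e : ∀ (n : N) y w, Φ (n • y) (n • w) = n • Φ y w)
    {a b : X} {z : F} (ab : Φ a z ≠ Φ b z) (γ : X → Perm X) (h0 : ∀ x, γ x x = x)
    (hc : ∀ (n : N) y x, γ (n • y) (n • x) = n • γ y x)
    (T : ∀ y y', ∃ u : N, (∀ w, Φ y (u • w) = Φ y' w) ∧ ∀ x, γ y (u • x) = γ y' x) : False := by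
  have ab' : a ≠ b := fun h => ab (h ▸ rfl)
  have iΦ : Function.Injective Φ := fun y y' h => by
    by_contra q
    obtain ⟨n, rfl, rfl⟩ := tx a b y y' ab' q
    have := congrFun h (n • z)
    rw [e, e] at this
    exact ab (smul_left_cancel n this)
  have : Finite X := Finite.of_injective Φ iΦ
  have s1 : ∀ n : N, (∀ w : F', n • w = w) → ∀ w : F, n • w = w := fun n hn w => by
    by_contra q
    refine reg c t tx (toPermHom N F').ker (Equiv.ext hn) q a fun l hl h w => i a ?_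
    rw [← h, e, h]
    exact DFunLike.congr_fun hl _
  have s2 : ∀ n : N, (∀ x : X, n • x = x) → ∀ w : F, n • w = w := fun n hn w => by
    by_contra q
    obtain ⟨u, hu, -⟩ := T a b
    refine comm c t (toPermHom N X).ker (Equiv.ext hn) q (u := u) (x := z)
      (fun h => ab (by rw [← hu, h])) fun l hl w => i a ?_
    have h : ∀ x : X, l • x = x := DFunLike.congr_fun hl
    rw [hu, ← h b, e, ← hu, ← e, h]
  refine num c' t' tx ab' (fun n => ⟨fun h x => iΦ (funext fun w => ?_), fun h w => ?_⟩) γ h0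
    (fun x h => ?_) fun x n h y => by rw [← hc, h]
  · rw [← s1 n h w, e, h, s1 n h]
  · obtain ⟨w, rfl⟩ := ((Nat.bijective_iff_injective_and_card _).2 ⟨i a, c.trans c'.symm⟩).2 w
    rw [← e, h, s2 n h]
  · have g : ∀ y x, γ y x = x := fun y w => by
      obtain ⟨n, rfl⟩ : ∃ n : N, n • x = y := by
        obtain ⟨p, hp⟩ : ∃ p, x ≠ p := by
          by_contra! q; exact ab' ((q a).symm.trans (q b))
        obtain ⟨p', hp'⟩ : ∃ p, y ≠ p := by
          by_contra! q; exact ab' ((q a).symm.trans (q b))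
        exact (tx x p y p' hp hp').imp fun _ => And.left
      rw [← smul_inv_smul n w, hc, h]; rfl
    obtain ⟨u, hu, hu'⟩ := T a b
    exact ab (by rw [← hu, s2 u fun x => by simpa [g] using hu' x])

end Pool.Agent.H.MP_4dd1f4_al
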